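import Pool.Agent.Helper88.D4.Stmts
import Pool.Agent.Helper37.SD.Frame

/-!
# Project D4 (MP_e1889a_ag): the log discrepancy of a prime divisor is at most 1
-/

set_option autoImplicit false

namespace Pool.Agent.Helper75.D4

open Module Filter Topology Pool.Agent.Helper37.SD Pool.Agent.Helper20.TS Pool.Agent.Helper88.D4

variable {K : Type} [Field K] [Algebra ℂ K]

/-- A derivation with bounds at the units and at a uniformiser. -/
theorem ge_of_unif {u : RVal K} (hint : ∀ x, x ≠ 0 → ∃ n : ℤ, u.val x = n) {p : K} (hp : p ≠ 0)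
    (hup : u.val p = 1) (D : Derivation ℂ K K) (c : ℝ) (h1 : u.Ge (c + 1) (D p))
    (h2 : ∀ g, g ≠ 0 → u.val g = 0 → u.Ge c (D g)) :
    ∀ x, x ≠ 0 → u.Ge (u.val x + c) (D x) := by
  have key : ∀ n : ℕ, ∀ g, g ≠ 0 → u.val g = 0 → u.Ge (n + c) (D (g * p ^ n)) ∧
      u.Ge (-n + c) (D (g / p ^ n)) := by
    intro n g hg hug
    have hpn : p ^ n ≠ 0 := pow_ne_zero n hp
    have hun : u.val (p ^ n) = n := by rw [u.val_pow hp, hup, mul_one]
    have hDpn : u.Ge (n + c) (D (p ^ n)) := by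
      rcases Nat.eq_zero_or_pos n with h0 | hpos
      · subst h0
        left
        rw [pow_zero, Derivation.map_one_eq_zero]
      · rw [Derivation.leibniz_pow]
        have h3 : u.Ge (n + c) (p ^ (n - 1) * D p) := by
          have h4 : u.Ge ((n - 1 : ℕ) : ℝ) (p ^ (n - 1)) := by
            right
            rw [u.val_pow hp, hup, mul_one]
          have h5 := u.ge_mul h4 h1
          have h6 : ((n - 1 : ℕ) : ℝ) + (c + 1) = n + c := by
            rw [Nat.cast_sub hpos]
            push_cast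
            ring
          rwa [h6] at h5
        have h7 : n • p ^ (n - 1) • D p = ((n : ℕ) : ℂ) • (p ^ (n - 1) * D p) := by
          rw [smul_eq_mul, Nat.cast_smul_eq_nsmul]
        rw [h7]
        exact u.ge_smul _ h3
    have hg' : u.Ge 0 g := Or.inr (by rw [hug])
    have hpn' : u.Ge n (p ^ n) := Or.inr (by rw [hun])
    constructor
    · rw [Derivation.leibniz, smul_eq_mul, smul_eq_mul]
      refine u.ge_add ?_ ?_
      · have := u.ge_mul hg' hDpn
        rwa [zero_add] at this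
      · exact u.ge_mul hpn' (h2 g hg hug)
    · have h3 : D (g / p ^ n) = (p ^ n * D g - g * D (p ^ n)) / (p ^ n * p ^ n) :=
        der_div D g (p ^ n) hpn
      rw [h3]
      have h4 : u.Ge (n + c) (p ^ n * D g - g * D (p ^ n)) := by
        refine u.ge_sub (u.ge_mul hpn' (h2 g hg hug)) ?_
        have := u.ge_mul hg' hDpn
        rwa [zero_add] at this
      have h5 := u.ge_div h4 (mul_ne_zero hpn hpn)
      rw [u.map_mul _ _ hpn hpn, hun] at h5
      have h6 : (n : ℝ) + c - (n + n) = -n + c := by ring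
      rwa [h6] at h5
  intro x hx
  obtain ⟨n, hn⟩ := hint x hx
  rcases Int.eq_nat_or_neg n with ⟨k, rfl | rfl⟩
  · have hpk : p ^ k ≠ 0 := pow_ne_zero k hp
    have h3 := (key k (x / p ^ k) (div_ne_zero hx hpk) (by
      rw [u.val_div hx hpk, u.val_pow hp, hup, hn]
      push_cast
      ring)).1
    rw [div_mul_cancel₀ _ hpk] at h3
    rw [hn]
    exact_mod_cast h3
  · have hpk : p ^ k ≠ 0 := pow_ne_zero k hp
    have h3 := (key k (x * p ^ k) (mul_ne_zero hx hpk) (by
      rw [u.map_mul _ _ hx hpk, u.val_pow hp, hup, hn]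
      push_cast
      ring)).2
    rw [mul_div_cancel_right₀ _ hpk] at h3
    rw [hn]
    push_cast
    exact h3

/-- from the ring to the valuation ring -/
theorem ge_of_loc {R : Subalgebra ℂ K} {u : RVal K} (hu : PDiv R u) (D : Derivation ℂ K K)
    (h : ∀ x ∈ R, u.Ge 0 (D x)) : ∀ x, u.Ge 0 x → u.Ge 0 (D x) := by
  intro x hx
  by_cases hx0 : x = 0
  · left
    rw [hx0, map_zero]
  obtain ⟨s, hs, hs0, hus, hsx⟩ := hu.loc x hx0 (hx.resolve_left hx0)
  have h1 : D (s * x) = s * D x + x * D s := by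
    rw [Derivation.leibniz, smul_eq_mul, smul_eq_mul]
  have h2 : D x = (D (s * x) - x * D s) / s := by
    rw [h1]
    field_simp
    ring
  rw [h2]
  have h3 : u.Ge 0 (D (s * x) - x * D s) := by
    refine u.ge_sub (h _ hsx) ?_
    have := u.ge_mul hx (h s hs)
    rwa [add_zero] at this
  have h4 := u.ge_div h3 hs0
  rwa [hus, sub_zero] at h4

section Perm

variable {J : Bra K} (hJ : IsAlt J) (u : RVal K)

include hJ

theorem ge12 {c : ℝ} {x y z t : K} (h : u.Ge c (J y z t x)) : u.Ge c (J x z t y) := by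
  rw [hJ.s1]
  exact u.ge_neg h

theorem ge23 {c : ℝ} {x y z t : K} (h : u.Ge c (J y z t x)) : u.Ge c (J z y t x) := by
  rw [hJ.s2, Derivation.neg_apply]
  exact u.ge_neg h

theorem ge34 {c : ℝ} {x y z t : K} (h : u.Ge c (J y z t x)) : u.Ge c (J y t z x) := by
  rw [hJ.s3, Derivation.neg_apply]
  exact u.ge_neg h

omit u in
theorem eq12 (x z t : K) : J x z t x = 0 := by
  have h := hJ.s1 x x z t
  have h2 : (2 : K) * J x z t x = 0 := by
    rw [two_mul]
    nth_rewrite 1 [h]
    rw [neg_add_cancel]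
  have h3 : (2 : K) ≠ 0 := by
    have : (algebraMap ℂ K) 2 ≠ 0 := (map_ne_zero _).mpr two_ne_zero
    rwa [map_ofNat] at this
  exact (mul_eq_zero.1 h2).resolve_left h3

omit u in
theorem eq13 (x y t : K) : J y x t x = 0 := by
  have h := eq12 hJ x y t
  rw [hJ.s2, Derivation.neg_apply, h, neg_zero]

omit u in
theorem eq14 (x y z : K) : J y z x x = 0 := by
  have h := eq13 hJ x y z
  rw [hJ.s3, Derivation.neg_apply, h, neg_zero]

end Perm

theorem s_LDpd : S_LDpd := by
  intro K _ _ R ξ J a hC u hu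
  have hJ := hC.alt
  obtain ⟨p, hpR, hp, hup⟩ := hu.unif
  -- the bracket preserves the valuation ring
  have hO : ∀ x y z t, u.Ge 0 x → u.Ge 0 y → u.Ge 0 z → u.Ge 0 t → u.Ge 0 (J y z t x) := by
    have hR : ∀ x ∈ R, u.Ge 0 x := by
      intro x hx
      by_cases h0 : x = 0
      · exact Or.inl h0
      · exact Or.inr (hu.nonneg x hx h0)
    have h1 : ∀ y ∈ R, ∀ z ∈ R, ∀ t ∈ R, ∀ x, u.Ge 0 x → u.Ge 0 (J y z t x) :=
      fun y hy z hz t ht => ge_of_loc hu _ (fun x hx => hR _ (hC.reg x hx y hy z hz t ht))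
    have h2 : ∀ y, u.Ge 0 y → ∀ z ∈ R, ∀ t ∈ R, ∀ x, u.Ge 0 x → u.Ge 0 (J y z t x) :=
      fun y hy z hz t ht => ge_of_loc hu _ (fun x hx => ge12 hJ u (h1 x hx z hz t ht y hy))
    have h3 : ∀ y, u.Ge 0 y → ∀ z, u.Ge 0 z → ∀ t ∈ R, ∀ x, u.Ge 0 x → u.Ge 0 (J y z t x) :=
      fun y hy z hz t ht => ge_of_loc hu _ (fun x hx =>
        ge12 hJ u (ge23 hJ u (ge12 hJ u (h2 y hy x hx t ht z hz))))
    intro x y z t hx hy hz ht
    exact ge_of_loc hu _ (fun x hx => ge12 hJ u (ge23 hJ u (ge34 hJ u (ge23 hJ u (ge12 hJ u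
      (h3 y hy z hz x hx t ht)))))) x hx
  have hp0 : u.Ge 0 p := Or.inr (by rw [hup]; norm_num)
  have hun : ∀ g, g ≠ 0 → u.val g = 0 → u.Ge 0 g := fun g _ h => Or.inr (by rw [h])
  have lem := ge_of_unif (u := u) hu.int hp hup
  -- one slot is `p`
  have q1 : ∀ x g h, x ≠ 0 → u.Ge 0 g → u.Ge 0 h → u.Ge (u.val x) (J p g h x) := by
    intro x g h hx hg hh
    have := lem (J p g h) 0 (by left; exact eq12 hJ p g h)
      (fun g' hg' hug' => hO _ _ _ _ (hun g' hg' hug') hp0 hg hh) x hx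
    rwa [add_zero] at this
  have q2 : ∀ x y h, x ≠ 0 → y ≠ 0 → u.Ge 0 h → u.Ge (u.val x + u.val y) (J y p h x) := by
    intro x y h hx hy hh
    exact lem (J y p h) (u.val y) (by left; exact eq13 hJ p y h)
      (fun g' hg' hug' => by
        have h1 := q1 y g' h hy (hun g' hg' hug') hh
        exact ge12 hJ u (ge23 hJ u h1)) x hx
  have q3 : ∀ x y z, x ≠ 0 → y ≠ 0 → z ≠ 0 →
      u.Ge (u.val x + (u.val y + u.val z)) (J y z p x) := by
    intro x y z hx hy hz
    refine lem (J y z p) (u.val y + u.val z) (by left; exact eq14 hJ p y z)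
      (fun g' hg' hug' => ?_) x hx
    have h1 := q2 y z g' hy hz (hun g' hg' hug')
    -- `J z p g' y`
    exact ge12 hJ u (ge23 hJ u (ge34 hJ u h1))
  -- arbitrary slots
  have p1 : ∀ x g h k, x ≠ 0 → u.Ge 0 g → u.Ge 0 h → u.Ge 0 k →
      u.Ge (u.val x + (-1)) (J g h k x) := by
    intro x g h k hx hg hh hk
    refine lem (J g h k) (-1) ?_ (fun g' hg' hug' => ?_) x hx
    · have h1 := hO p g h k hp0 hg hh hk
      rwa [show (-1 : ℝ) + 1 = 0 by norm_num]
    · exact u.ge_mono (by norm_num) (hO g' g h k (hun g' hg' hug') hg hh hk)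
  have p2 : ∀ x y h k, x ≠ 0 → y ≠ 0 → u.Ge 0 h → u.Ge 0 k →
      u.Ge (u.val x + (u.val y + (-1))) (J y h k x) := by
    intro x y h k hx hy hh hk
    refine lem (J y h k) (u.val y + (-1)) ?_ (fun g' hg' hug' => ?_) x hx
    · have h1 := ge12 hJ u (q1 y h k hy hh hk)
      rwa [show u.val y + (-1) + 1 = u.val y by ring]
    · exact ge12 hJ u (p1 y g' h k hy (hun g' hg' hug') hh hk)
  have p3 : ∀ x y z k, x ≠ 0 → y ≠ 0 → z ≠ 0 → u.Ge 0 k →
      u.Ge (u.val x + (u.val y + (u.val z + (-1)))) (J y z k x) := by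
    intro x y z k hx hy hz hk
    refine lem (J y z k) (u.val y + (u.val z + (-1))) ?_ (fun g' hg' hug' => ?_) x hx
    · have h1 := q2 y z k hy hz hk
      rw [show u.val y + (u.val z + (-1)) + 1 = u.val y + u.val z by ring]
      exact ge12 hJ u (ge23 hJ u h1)
    · have h1 := p2 y z g' k hy hz (hun g' hg' hug') hk
      exact ge12 hJ u (ge23 hJ u h1)
  intro x y z t hx hy hz ht
  have h4 := lem (J y z t) (u.val y + (u.val z + (u.val t + (-1)))) (by
      have h1 := q3 y z t hy hz ht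
      rw [show u.val y + (u.val z + (u.val t + (-1))) + 1 = u.val y + (u.val z + u.val t) by ring]
      exact ge12 hJ u (ge23 hJ u (ge34 hJ u h1)))
    (fun g' hg' hug' => by
      have h1 := p3 y z t g' hy hz ht (hun g' hg' hug')
      exact ge12 hJ u (ge23 hJ u (ge34 hJ u h1))) x hx
  rwa [show u.val x + u.val y + u.val z + u.val t - 1 =
    u.val x + (u.val y + (u.val z + (u.val t + (-1)))) by ring]

end Pool.Agent.Helper75.D4
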