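import Pool.Agent.Helper88.D4.Stmts3

/-!
# Project D4 (MP_e1889a_ag): Gordan's theorem of the alternative for integral vectors
-/

set_option autoImplicit false

namespace Pool.Agent.Helper75.D4

/-- elimination of variables: for finitely many vectors `v` of a cone `C` with `-v` not in `C` there
is a linear form which is positive on the vectors -/
theorem elimVar (q : ℕ) : ∀ (C : Set (Fin q → ℚ)), (∀ v ∈ C, ∀ w ∈ C, v + w ∈ C) →
    (∀ c : ℚ, 0 < c → ∀ v ∈ C, c • v ∈ C) → ∀ S : Finset (Fin q → ℚ),
      (∀ v ∈ S, v ∈ C ∧ -v ∉ C) → ∃ t : Fin q → ℚ, ∀ v ∈ S, 0 < ∑ i, t i * v i := by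
  induction q with
  | zero =>
    intro C hadd hsmul S hS
    refine ⟨0, fun v hv => ?_⟩
    exfalso
    have h1 : -v = v := Subsingleton.elim _ _
    exact (hS v hv).2 (h1.symm ▸ (hS v hv).1)
  | succ q ih =>
    intro C hadd hsmul S hS
    set C' : Set (Fin q → ℚ) := {v | (Fin.cons 0 v : Fin (q + 1) → ℚ) ∈ C} with hC'
    set S' : Finset (Fin q → ℚ) :=
      ((S.filter fun v => 0 < v 0) ×ˢ (S.filter fun v => v 0 < 0)).image
        (fun x => fun i : Fin q => x.1 0 * x.2 i.succ - x.2 0 * x.1 i.succ) ∪
      (S.filter fun v => v 0 = 0).image (fun v => fun i : Fin q => v i.succ) with hS'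
    have h1 : ∃ t : Fin q → ℚ, ∀ v ∈ S', 0 < ∑ i, t i * v i := by
      apply ih C'
      · intro v hv w hw
        have := hadd _ hv _ hw
        change (Fin.cons 0 (v + w) : Fin (q + 1) → ℚ) ∈ C
        convert this using 1
        funext i
        refine Fin.cases ?_ (fun j => ?_) i
        · simp
        · simp
      · intro c hc v hv
        have := hsmul c hc _ hv
        change (Fin.cons 0 (c • v) : Fin (q + 1) → ℚ) ∈ C
        convert this using 1
        funext i
        refine Fin.cases ?_ (fun j => ?_) i
        · simp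
        · simp
      · intro v hv
        rw [hS', Finset.mem_union, Finset.mem_image, Finset.mem_image] at hv
        rcases hv with ⟨x, hx, rfl⟩ | ⟨x, hx, rfl⟩
        · rw [Finset.mem_product, Finset.mem_filter, Finset.mem_filter] at hx
          obtain ⟨⟨hp, hp0⟩, hn, hn0⟩ := hx
          have e : (Fin.cons 0 (fun i : Fin q => x.1 0 * x.2 i.succ - x.2 0 * x.1 i.succ) :
              Fin (q + 1) → ℚ) = x.1 0 • x.2 + (-x.2 0) • x.1 := by
            funext i
            refine Fin.cases ?_ (fun j => ?_) i
            · simp; ring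
            · simp; ring
          constructor
          · change _ ∈ C
            rw [e]
            exact hadd _ (hsmul _ hp0 _ (hS _ hn).1) _ (hsmul _ (by linarith) _ (hS _ hp).1)
          · intro h
            change _ ∈ C at h
            apply (hS _ hn).2
            have h2 : -x.2 = (x.1 0)⁻¹ • ((Fin.cons 0
                (-(fun i : Fin q => x.1 0 * x.2 i.succ - x.2 0 * x.1 i.succ)) :
                Fin (q + 1) → ℚ) + (-x.2 0) • x.1) := by
              funext i
              refine Fin.cases ?_ (fun j => ?_) i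
              · simp
                field_simp
              · simp
                field_simp
                ring
            rw [h2]
            exact hsmul _ (inv_pos.2 hp0) _ (hadd _ h _ (hsmul _ (by linarith) _ (hS _ hp).1))
        · rw [Finset.mem_filter] at hx
          obtain ⟨hz, hz0⟩ := hx
          have e : (Fin.cons 0 (fun i : Fin q => x i.succ) : Fin (q + 1) → ℚ) = x := by
            funext i
            refine Fin.cases ?_ (fun j => ?_) i
            · simp [hz0]
            · simp
          have e2 : (Fin.cons 0 (-(fun i : Fin q => x i.succ)) : Fin (q + 1) → ℚ) = -x := by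
            funext i
            refine Fin.cases ?_ (fun j => ?_) i
            · simp [hz0]
            · simp
          constructor
          · change _ ∈ C
            rw [e]
            exact (hS _ hz).1
          · change ¬ (_ ∈ C)
            rw [e2]
            exact (hS _ hz).2
    obtain ⟨t, ht⟩ := h1
    set φ : (Fin (q + 1) → ℚ) → ℚ := fun v => -(∑ i : Fin q, t i * v i.succ) / v 0 with hφ
    obtain ⟨m, hm1, hm2⟩ := Order.exists_between_finsets
      ((S.filter fun v => 0 < v 0).image φ) ((S.filter fun v => v 0 < 0).image φ) (by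
        intro a ha b hb
        rw [Finset.mem_image] at ha hb
        obtain ⟨p, hp, rfl⟩ := ha
        obtain ⟨n, hn, rfl⟩ := hb
        have h2 := ht (fun i : Fin q => p 0 * n i.succ - n 0 * p i.succ) (by
          rw [hS', Finset.mem_union]
          left
          rw [Finset.mem_image]
          exact ⟨(p, n), Finset.mem_product.2 ⟨hp, hn⟩, rfl⟩)
        have hp0 := (Finset.mem_filter.1 hp).2
        have hn0 := (Finset.mem_filter.1 hn).2
        have h3 : ∑ i : Fin q, t i * (p 0 * n i.succ - n 0 * p i.succ) =
            p 0 * (∑ i : Fin q, t i * n i.succ) - n 0 * (∑ i : Fin q, t i * p i.succ) := by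
          rw [Finset.mul_sum, Finset.mul_sum, ← Finset.sum_sub_distrib]
          exact Finset.sum_congr rfl fun i _ => by ring
        rw [h3] at h2
        have h4 : φ n = (∑ i : Fin q, t i * n i.succ) / (-n 0) := by
          rw [hφ]
          simp only
          rw [div_neg, neg_div]
        rw [h4, hφ]
        simp only
        rw [div_lt_div_iff₀ hp0 (by linarith)]
        nlinarith [h2])
    refine ⟨Fin.cons m t, fun v hv => ?_⟩
    rw [Fin.sum_univ_succ]
    simp only [Fin.cons_zero, Fin.cons_succ]
    rcases lt_trichotomy (v 0) 0 with h | h | h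
    · have h2 := hm2 (φ v) (Finset.mem_image.2 ⟨v, Finset.mem_filter.2 ⟨hv, h⟩, rfl⟩)
      have h4 : φ v = (∑ i : Fin q, t i * v i.succ) / (-v 0) := by
        rw [hφ]
        simp only
        rw [div_neg, neg_div]
      rw [h4, lt_div_iff₀ (by linarith)] at h2
      linarith
    · have h2 := ht (fun i : Fin q => v i.succ) (by
        rw [hS', Finset.mem_union]
        right
        rw [Finset.mem_image]
        exact ⟨v, Finset.mem_filter.2 ⟨hv, h⟩, rfl⟩)
      rw [h, mul_zero, zero_add]
      exact h2
    · have h2 := hm1 (φ v) (Finset.mem_image.2 ⟨v, Finset.mem_filter.2 ⟨hv, h⟩, rfl⟩)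
      rw [hφ] at h2
      simp only at h2
      rw [div_lt_iff₀ h] at h2
      linarith

/-- a common denominator -/
theorem exists_den {q : ℕ} (t : Fin q → ℚ) : ∃ (d : ℕ) (z : Fin q → ℤ), 0 < d ∧
    ∀ i, (d : ℚ) * t i = z i := by
  refine ⟨∏ i, (t i).den, fun i => (t i).num * ((∏ j, (t j).den) / (t i).den : ℕ),
    Finset.prod_pos fun i _ => (t i).den_pos, fun i => ?_⟩
  have h1 : (t i).den ∣ ∏ j, (t j).den := Finset.dvd_prod_of_mem _ (Finset.mem_univ i)
  obtain ⟨e, he⟩ := h1
  simp only
  rw [he, Nat.mul_div_cancel_left _ (t i).den_pos]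
  push_cast
  have h2 : ((t i).den : ℚ) * t i = (t i).num := by
    rw [mul_comm]
    exact Rat.mul_den_eq_num (t i)
  calc ((t i).den : ℚ) * e * t i = ((t i).den * t i) * e := by ring
    _ = (t i).num * e := by rw [h2]

/-- Gordan's theorem of the alternative for integral vectors -/
theorem s_GOR : Pool.Agent.Helper88.D4.S_GOR := by
  intro N q γ hγ
  set Γ : Fin N → Fin q → ℚ := fun l i => (γ l i : ℚ) with hΓ
  obtain ⟨t, ht⟩ := elimVar q {v | ∃ (m : ℕ) (a : Fin N → ℕ), 0 < m ∧
      ∀ i, (m : ℚ) * v i = ∑ l, (a l : ℚ) * Γ l i} (by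
    rintro v ⟨m, a, hm, h⟩ w ⟨m', a', hm', h'⟩
    refine ⟨m * m', fun l => m' * a l + m * a' l, Nat.mul_pos hm hm', fun i => ?_⟩
    have e : ∑ l, ((m' * a l + m * a' l : ℕ) : ℚ) * Γ l i =
        m' * ∑ l, (a l : ℚ) * Γ l i + m * ∑ l, (a' l : ℚ) * Γ l i := by
      rw [Finset.mul_sum, Finset.mul_sum, ← Finset.sum_add_distrib]
      refine Finset.sum_congr rfl fun l _ => ?_
      push_cast
      ring
    rw [e, ← h i, ← h' i]
    push_cast
    rw [Pi.add_apply]
    ring) (by
    rintro c hc v ⟨m, a, hm, h⟩
    refine ⟨m * c.den, fun l => c.num.toNat * a l, Nat.mul_pos hm c.den_pos, fun i => ?_⟩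
    have hc1 : ((c.num.toNat : ℕ) : ℚ) = c.num := by
      have h2 : ((c.num.toNat : ℕ) : ℤ) = c.num := Int.toNat_of_nonneg (Rat.num_pos.2 hc).le
      exact_mod_cast h2
    have hc2 : (c.den : ℚ) * c = c.num := by
      rw [mul_comm]
      exact Rat.mul_den_eq_num c
    have e : ∑ l, ((c.num.toNat * a l : ℕ) : ℚ) * Γ l i =
        c.num * ∑ l, (a l : ℚ) * Γ l i := by
      rw [Finset.mul_sum]
      refine Finset.sum_congr rfl fun l _ => ?_
      push_cast
      rw [hc1]
      ring
    rw [e, ← h i, ← hc2]
    push_cast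
    rw [Pi.smul_apply, smul_eq_mul]
    ring) (Finset.univ.image Γ) (by
    intro v hv
    rw [Finset.mem_image] at hv
    obtain ⟨l, -, rfl⟩ := hv
    constructor
    · refine ⟨1, Pi.single l 1, one_pos, fun i => ?_⟩
      rw [Finset.sum_eq_single l]
      · simp
      · intro k _ hk
        rw [Pi.single_eq_of_ne hk]
        simp
      · intro h
        exact absurd (Finset.mem_univ l) h
    · rintro ⟨m, a, hm, h⟩
      have h2 := hγ (fun k => a k + (Pi.single l m : Fin N → ℕ) k) (by
        intro i
        have h3 := h i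
        have h4 : ∑ k, (Pi.single l m : Fin N → ℕ) k * (Γ k i) = m * Γ l i := by
          rw [Finset.sum_eq_single l]
          · simp
          · intro k _ hk
            rw [Pi.single_eq_of_ne hk]
            simp
          · intro h
            exact absurd (Finset.mem_univ l) h
        have h5 : ((∑ k, ((a k + (Pi.single l m : Fin N → ℕ) k : ℕ) : ℤ) * γ k i : ℤ) : ℚ) =
            0 := by
          push_cast
          have h6 : ∀ k, ((a k : ℚ) + ((Pi.single l m : Fin N → ℕ) k : ℚ)) * (γ k i : ℚ) =
              (a k : ℚ) * Γ k i + ((Pi.single l m : Fin N → ℕ) k : ℚ) * Γ k i := by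
            intro k
            rw [hΓ]
            ring
          rw [Finset.sum_congr rfl fun k _ => h6 k, Finset.sum_add_distrib, ← h3, h4,
            Pi.neg_apply]
          ring
        exact_mod_cast h5) l
      simp only [Pi.single_eq_same] at h2
      omega)
  obtain ⟨d, z, hd, hz⟩ := exists_den t
  refine ⟨z, fun l => ?_⟩
  have h1 := ht (Γ l) (Finset.mem_image.2 ⟨l, Finset.mem_univ l, rfl⟩)
  have h2 : ((∑ i, z i * γ l i : ℤ) : ℚ) = d * ∑ i, t i * Γ l i := by
    push_cast
    rw [Finset.mul_sum]
    refine Finset.sum_congr rfl fun i _ => ?_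
    rw [← hz i, hΓ]
    ring
  have h3 : (0 : ℚ) < ((∑ i, z i * γ l i : ℤ) : ℚ) := by
    rw [h2]
    exact mul_pos (by exact_mod_cast hd) h1
  exact_mod_cast h3

end Pool.Agent.Helper75.D4
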