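import Pool.Agent.Helper88.D4.Stmts
import Pool.Agent.Helper37.SD.Frame

/-!
# Project D4 (MP_e1889a_ag): the log discrepancy from a frame
-/

set_option autoImplicit false

namespace Pool.Agent.Helper75.D4

open Module Filter Topology Pool.Agent.Helper37.SD Pool.Agent.Helper20.TS Pool.Agent.Helper88.D4

variable {K : Type} [Field K] [Algebra ℂ K]

/-- polynomials in an element of positive value over a ring with the values `0` -/
theorem aeval_ne {u : RVal K} {A : Subalgebra ℂ K} (hA : ∀ a ∈ A, a ≠ 0 → u.val a = 0) {g : K}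
    (hg : g ≠ 0) (hug : 0 < u.val g) (q : Polynomial A) (hq : q ≠ 0) :
    Polynomial.aeval g q ≠ 0 := by
  have hA' : ∀ a : A, algebraMap A K a ≠ 0 → u.val (algebraMap A K a) = 0 := fun a h => hA _ a.2 h
  have hge : ∀ r : Polynomial A, u.Ge 0 (Polynomial.aeval g r) := by
    intro r
    rw [Polynomial.aeval_eq_sum_range]
    refine u.ge_sum _ _ fun i _ => ?_
    rw [Algebra.smul_def]
    have h1 : u.Ge 0 (algebraMap A K (r.coeff i)) := by
      by_cases h0 : algebraMap A K (r.coeff i) = 0
      · exact Or.inl h0
      · right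
        rw [hA' _ h0]
    have h2 : u.Ge 0 (g ^ i) := by
      right
      rw [u.val_pow hg]
      positivity
    have := u.ge_mul h1 h2
    rwa [add_zero] at this
  -- induction on the degree
  have key : ∀ n : ℕ, ∀ q : Polynomial A, q.natDegree ≤ n → q ≠ 0 →
      Polynomial.aeval g q ≠ 0 := by
    intro n
    induction n with
    | zero =>
      intro q hn hq
      have h1 : q = Polynomial.C (q.coeff 0) := Polynomial.eq_C_of_natDegree_le_zero hn
      rw [h1, Polynomial.aeval_C]
      intro h2
      apply hq
      rw [h1]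
      have h3 : q.coeff 0 = 0 := Subtype.ext h2
      rw [h3, Polynomial.C_0]
    | succ n ih =>
      intro q hn hq
      have h1 : q = Polynomial.X * q.divX + Polynomial.C (q.coeff 0) := by
        rw [mul_comm]
        exact (Polynomial.divX_mul_X_add q).symm
      have h2 : Polynomial.aeval g q = g * Polynomial.aeval g q.divX +
          algebraMap A K (q.coeff 0) := by
        conv_lhs => rw [h1]
        rw [map_add, map_mul, Polynomial.aeval_X, Polynomial.aeval_C]
      rw [h2]
      by_cases h3 : algebraMap A K (q.coeff 0) = 0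
      · rw [h3, add_zero]
        refine mul_ne_zero hg (ih _ ?_ ?_)
        · rw [Polynomial.natDegree_divX_eq_natDegree_tsub_one]
          omega
        · intro h4
          apply hq
          have h5 : q.coeff 0 = 0 := Subtype.ext h3
          rw [h1, h4, h5, mul_zero, Polynomial.C_0, add_zero]
      · intro h4
        have h5 : algebraMap A K (q.coeff 0) = -(g * Polynomial.aeval g q.divX) := by
          rw [eq_neg_iff_add_eq_zero, add_comm]
          exact h4
        have h6 : u.Ge (u.val g) (algebraMap A K (q.coeff 0)) := by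
          rw [h5]
          refine u.ge_neg ?_
          have := u.ge_mul (u.ge_self (x := g)) (hge q.divX)
          rwa [add_zero] at this
        have h7 := h6.resolve_left h3
        rw [hA' _ h3] at h7
        linarith
  exact key _ q le_rfl hq

/-- `g` and the functions with independent residues are algebraically independent -/
theorem algInd {u : RVal K} {y : Fin 3 → K} (hy : RInd u y) {g : K} (hg : g ≠ 0)
    (hug : 0 < u.val g) : AlgebraicIndependent ℂ ![g, y 0, y 1, y 2] := by
  have hy1 : AlgebraicIndependent ℂ y := by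
    rw [algebraicIndependent_iff]
    intro P hP
    by_contra h0
    exact (hy P h0).1 hP
  have hA : ∀ a ∈ Algebra.adjoin ℂ (Set.range y), a ≠ 0 → u.val a = 0 := by
    intro a ha ha0
    rw [Algebra.adjoin_range_eq_range_aeval] at ha
    obtain ⟨P, rfl⟩ := ha
    have hP : P ≠ 0 := by
      rintro rfl
      exact ha0 (map_zero _)
    exact (hy P hP).2
  have h1 : Transcendental (Algebra.adjoin ℂ (Set.range y)) g := by
    intro h
    obtain ⟨q, hq, hq0⟩ := h
    exact aeval_ne hA hg hug q hq hq0
  have h2 := (hy1.option_iff_transcendental g).2 h1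
  have h3 := h2.comp _ (finSuccEquiv 3).injective
  convert h3 using 1
  funext i
  fin_cases i <;> rfl

/-- the determinant of logarithmic derivations -/
theorem ge_dt {u : RVal K} {D : Fin 4 → Derivation ℂ K K} (hD : ∀ i, LogDer u (D i))
    (f : Fin 4 → K) (hf : ∀ i, f i ≠ 0) : u.Ge (∑ i, u.val (f i)) (dt D f) := by
  unfold dt
  rw [Matrix.det_apply]
  refine u.ge_sum _ _ fun σ _ => ?_
  have h1 : u.Ge (∑ i, u.val (f i)) (∏ i, (Matrix.of fun i j => D i (f j)) (σ i) i) :=
    u.ge_prod Finset.univ (fun i => u.val (f i)) _ (fun i _ => hD (σ i) (f i) (hf i))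
  rcases Int.units_eq_one_or (Equiv.Perm.sign σ) with hs | hs
  · rw [hs, one_smul]
    exact h1
  · rw [hs]
    have e : ((-1 : ℤˣ) • ∏ i, (Matrix.of fun i j => D i (f j)) (σ i) i) =
        -∏ i, (Matrix.of fun i j => D i (f j)) (σ i) i := by
      rw [Units.smul_def]
      simp
    rw [e]
    exact u.ge_neg h1

theorem s_LDfr (hT : S_TAME) (hAI : S_AI) (hJD : S_JD) : S_LDfr := by
  intro K _ _ J htr hJ u hu y hy g hg hug
  set z : Fin 4 → K := ![g, y 0, y 1, y 2] with hz
  obtain ⟨hai, hfr, -⟩ := hAI K J htr hJ
  have hne : brk J z ≠ 0 := (hai z).1 (algInd hy hg hug)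
  have hb : brk J z = J (y 0) (y 1) (y 2) g := rfl
  refine ⟨hb ▸ hne, ?_⟩
  obtain ⟨hd, -⟩ := hfr z hne
  have hz0 : z 0 = g := rfl
  have hzs : ∀ j : Fin 3, z j.succ = y j := by
    intro j
    fin_cases j <;> rfl
  set D : Fin 4 → Derivation ℂ K K := ![g • dfr J z 0, dfr J z 1, dfr J z 2, dfr J z 3] with hD
  have hD0 : D 0 = g • dfr J z 0 := rfl
  have hDs : ∀ j : Fin 3, D j.succ = dfr J z j.succ := by
    intro j
    fin_cases j <;> rfl
  have hDz : ∀ i j, D i (z j) = if i = j then (if i = 0 then g else 1) else 0 := by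
    intro i j
    refine Fin.cases ?_ (fun k => ?_) i
    · rw [hD0, Derivation.smul_apply, hd, if_pos rfl, smul_eq_mul]
      by_cases h : (0 : Fin 4) = j
      · rw [if_pos h, if_pos h, mul_one]
      · rw [if_neg h, if_neg h, mul_zero]
    · rw [hDs, hd, if_neg (Fin.succ_ne_zero k)]
  have hlog : ∀ i, LogDer u (D i) := by
    intro i
    apply hT K htr u hu y hy g hg hug
    · rw [← hz0, hDz, hz0]
      by_cases h : i = 0
      · subst h
        rw [if_pos rfl, if_pos rfl]
        exact u.ge_self
      · rw [if_neg h]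
        exact Or.inl rfl
    · intro j
      rw [← hzs, hDz]
      by_cases h : i = j.succ
      · subst h
        rw [if_pos rfl, if_neg (Fin.succ_ne_zero j)]
        right
        rw [u.val_one]
      · rw [if_neg h]
        exact Or.inl rfl
  have hdz : dt D z = g := by
    unfold dt
    have h1 : (Matrix.of fun i j => D i (z j)) =
        Matrix.diagonal (fun i : Fin 4 => if i = 0 then g else 1) := by
      ext i j
      rw [Matrix.of_apply, hDz, Matrix.diagonal_apply]
    rw [h1, Matrix.det_diagonal, Fin.prod_univ_succ, if_pos rfl]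
    have h2 : ∏ i : Fin 3, (if (i.succ : Fin 4) = 0 then g else 1) = 1 :=
      Finset.prod_eq_one (fun i _ => if_neg (Fin.succ_ne_zero i))
    rw [h2, mul_one]
  intro x1 x2 x3 x4 h1 h2 h3 h4
  set f : Fin 4 → K := ![x1, x2, x3, x4] with hf
  have hbf : brk J f = J x2 x3 x4 x1 := rfl
  have hfne : ∀ i, f i ≠ 0 := by
    intro i
    fin_cases i
    · exact h1
    · exact h2
    · exact h3
    · exact h4
  have hsum : ∑ i, u.val (f i) = u.val x1 + u.val x2 + u.val x3 + u.val x4 := by
    rw [Fin.sum_univ_four]
    rfl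
  have hjd := hJD K J htr hJ D f z
  rw [hdz] at hjd
  have hval : J x2 x3 x4 x1 = brk J z * dt D f / g := by
    rw [← hjd, hbf]
    field_simp
  rw [hval]
  have h5 := u.ge_div (u.ge_mul (u.ge_self (x := brk J z)) (ge_dt hlog f hfne)) hg
  rw [hsum, hb] at h5
  rw [hb]
  have h6 : u.val x1 + u.val x2 + u.val x3 + u.val x4 -
      (u.val g - u.val (J (y 0) (y 1) (y 2) g)) =
      u.val (J (y 0) (y 1) (y 2) g) + (u.val x1 + u.val x2 + u.val x3 + u.val x4) - u.val g := by
    ring
  rw [h6]
  exact h5

end Pool.Agent.Helper75.D4
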