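import Pool.Agent.Helper88.D4.Stmts2
import Pool.Agent.Helper75.D4.LDfr

/-!
# Project D4 (MP_e1889a_ag): the log discrepancy from a frame, for bounded valuations
-/

set_option autoImplicit false

namespace Pool.Agent.Helper75.D4

open Module Filter Topology Pool.Agent.Helper37.SD Pool.Agent.Helper20.TS Pool.Agent.Helper88.D4

theorem s_LDfrb (hT : S_TAMEb) (hAI : S_AI) (hJD : S_JD) : S_LDfrb := by
  intro K _ _ J htr hJ u hu y hy g hg hug
  set z : Fin 4 → K := ![g, y 0, y 1, y 2] with hz
  obtain ⟨hai, hfr, -⟩ := hAI K J htr hJ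
  have hne : brk J z ≠ 0 := (hai z).1 (algInd hy hg hug)
  have hb : brk J z = J (y 0) (y 1) (y 2) g := rfl
  refine ⟨hb ▸ hne, ?_⟩
  obtain ⟨hd, -⟩ := hfr z hne
  have hz0 : z 0 = g := rfl
  have hzs : ∀ j : Fin 3, z j.succ = y j := by
    intro j
    fin_cases j <;> rfl
  set D : Fin 4 → Derivation ℂ K K := ![g • dfr J z 0, dfr J z 1, dfr J z 2, dfr J z 3] with hD
  have hD0 : D 0 = g • dfr J z 0 := rfl
  have hDs : ∀ j : Fin 3, D j.succ = dfr J z j.succ := by
    intro j
    fin_cases j <;> rfl
  have hDz : ∀ i j, D i (z j) = if i = j then (if i = 0 then g else 1) else 0 := by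
    intro i j
    refine Fin.cases ?_ (fun k => ?_) i
    · rw [hD0, Derivation.smul_apply, hd, if_pos rfl, smul_eq_mul]
      by_cases h : (0 : Fin 4) = j
      · rw [if_pos h, if_pos h, mul_one]
      · rw [if_neg h, if_neg h, mul_zero]
    · rw [hDs, hd, if_neg (Fin.succ_ne_zero k)]
  have hlog : ∀ i, LogDer u (D i) := by
    intro i
    apply hT K htr u hu y hy g hg hug
    · rw [← hz0, hDz, hz0]
      by_cases h : i = 0
      · subst h
        rw [if_pos rfl, if_pos rfl]
        exact u.ge_self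
      · rw [if_neg h]
        exact Or.inl rfl
    · intro j
      rw [← hzs, hDz]
      by_cases h : i = j.succ
      · subst h
        rw [if_pos rfl, if_neg (Fin.succ_ne_zero j)]
        right
        rw [u.val_one]
      · rw [if_neg h]
        exact Or.inl rfl
  have hdz : dt D z = g := by
    unfold dt
    have h1 : (Matrix.of fun i j => D i (z j)) =
        Matrix.diagonal (fun i : Fin 4 => if i = 0 then g else 1) := by
      ext i j
      rw [Matrix.of_apply, hDz, Matrix.diagonal_apply]
    rw [h1, Matrix.det_diagonal, Fin.prod_univ_succ, if_pos rfl]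
    have h2 : ∏ i : Fin 3, (if (i.succ : Fin 4) = 0 then g else 1) = 1 :=
      Finset.prod_eq_one (fun i _ => if_neg (Fin.succ_ne_zero i))
    rw [h2, mul_one]
  intro x1 x2 x3 x4 h1 h2 h3 h4
  set f : Fin 4 → K := ![x1, x2, x3, x4] with hf
  have hbf : brk J f = J x2 x3 x4 x1 := rfl
  have hfne : ∀ i, f i ≠ 0 := by
    intro i
    fin_cases i
    · exact h1
    · exact h2
    · exact h3
    · exact h4
  have hsum : ∑ i, u.val (f i) = u.val x1 + u.val x2 + u.val x3 + u.val x4 := by
    rw [Fin.sum_univ_four]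
    rfl
  have hjd := hJD K J htr hJ D f z
  rw [hdz] at hjd
  have hval : J x2 x3 x4 x1 = brk J z * dt D f / g := by
    rw [← hjd, hbf]
    field_simp
  rw [hval]
  have h5 := u.ge_div (u.ge_mul (u.ge_self (x := brk J z)) (ge_dt hlog f hfne)) hg
  rw [hsum, hb] at h5
  rw [hb]
  have h6 : u.val x1 + u.val x2 + u.val x3 + u.val x4 -
      (u.val g - u.val (J (y 0) (y 1) (y 2) g)) =
      u.val (J (y 0) (y 1) (y 2) g) + (u.val x1 + u.val x2 + u.val x3 + u.val x4) - u.val g := by
    ring
  rw [h6]
  exact h5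

end Pool.Agent.Helper75.D4
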